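import Pool.Agent.K4H95.LQ.TN
import Pool.Agent.K4H95.LQ.P2
import Pool.Agent.K4H95.LQ.R3

/-!
# A bound for the central values, and the number of positive central values with prescribed values
-/

set_option autoImplicit false

namespace Pool.Agent.K4H64.Pz

open Finset Filter Topology Pool.Agent.H306R2.RG Pool.Agent.H306R2.RZ Pool.Agent.K4H95.LQ

noncomputable section

variable {φ : FD}

lemma psi_pow2 (φ : FD) : ∃ C : ℝ, 0 < C ∧ ∀ z : ℝ, Psi φ z ≤ C * Real.exp (9 / 16 * z) := by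
  obtain ⟨C, hC, h⟩ := Psi_decay φ
  refine ⟨max C 1, by positivity, fun z => ?_⟩
  rcases le_total z 0 with hz | hz
  · refine (h z).trans ?_
    have h1 : Real.exp (2 * z) ≤ Real.exp (9 / 16 * z) := Real.exp_le_exp.2 (by linarith)
    have h2 : C ≤ max C 1 := le_max_left _ _
    calc _ ≤ max C 1 * Real.exp (2 * z) := by gcongr
      _ ≤ _ := by gcongr
  · refine (Psi_le φ z).trans ?_
    have h1 : (1:ℝ) ≤ Real.exp (9 / 16 * z) := Real.one_le_exp (by positivity)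
    have h2 : (1:ℝ) ≤ max C 1 := le_max_right _ _
    nlinarith

lemma WW_pow2 (hφ : Fam φ) : ∃ C : ℝ, 0 < C ∧ ∀ (c : ℝ) (n d : ℕ), 0 ≤ c → 1 ≤ n → 1 ≤ d →
    WW φ c n d ≤ C * (d : ℝ) ^ (9 / 32 : ℝ) * (n : ℝ) ^ (-(9 / 16) : ℝ) := by
  obtain ⟨C, hC, h⟩ := psi_pow2 φ
  have hr := r_pos hφ
  refine ⟨C * (φ.r : ℝ) ^ (9 / 32 : ℝ), by positivity, fun c n d hc hn hd => ?_⟩
  have hn' : (0:ℝ) < n := by exact_mod_cast hn
  have hd' : (0:ℝ) < d := by exact_mod_cast hd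
  refine (h _).trans ?_
  have e1 : Real.exp (9 / 16 * (Real.log ((φ.r : ℝ) * d) / 2 - c - Real.log n)) ≤
      (φ.r : ℝ) ^ (9 / 32 : ℝ) * (d : ℝ) ^ (9 / 32 : ℝ) * (n : ℝ) ^ (-(9 / 16) : ℝ) := by
    rw [Real.rpow_def_of_pos hr, Real.rpow_def_of_pos hd', Real.rpow_def_of_pos hn', ← Real.exp_add, ← Real.exp_add,
      Real.log_mul hr.ne' hd'.ne']
    apply Real.exp_le_exp.2
    linarith
  calc C * Real.exp (9 / 16 * (Real.log ((φ.r : ℝ) * d) / 2 - c - Real.log n)) ≤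
      C * ((φ.r : ℝ) ^ (9 / 32 : ℝ) * (d : ℝ) ^ (9 / 32 : ℝ) * (n : ℝ) ^ (-(9 / 16) : ℝ)) := by gcongr
    _ = _ := by ring

/-- the convexity bound -/
theorem LL_bd (hφ : Fam φ) : ∃ C : ℝ, 0 ≤ C ∧ ∀ d : ℕ, 1 ≤ d → φ.A d → Squarefree d →
    |LLg φ d (1 / 2)| ≤ C * (d : ℝ) ^ (9 / 32 : ℝ) := by
  obtain ⟨C, hC, h⟩ := WW_pow2 hφ
  have hs := sp (a := -(17 / 16)) (by norm_num)
  have hT0 : 0 ≤ ∑' n : ℕ, ((n : ℝ) + 1) ^ (-(17 / 16) : ℝ) := tsum_nonneg fun n => by positivity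
  obtain ⟨T, hT⟩ : ∃ T, T = ∑' n : ℕ, ((n : ℝ) + 1) ^ (-(17 / 16) : ℝ) := ⟨_, rfl⟩
  rw [← hT] at hT0
  refine ⟨8 * (C * T), by positivity, fun d hd hA hsq => ?_⟩
  have hd' : (0:ℝ) < d := by exact_mod_cast hd
  have h1 : ∀ j : ℕ, |∑' n : ℕ, jo φ d (n + 1) / √((n : ℝ) + 1) * WW φ (j * Real.log 2) (n + 1) d| ≤
      C * (d : ℝ) ^ (9 / 32 : ℝ) * T := by
    intro j
    have h2 : HasSum (fun n : ℕ => C * (d : ℝ) ^ (9 / 32 : ℝ) * ((n : ℝ) + 1) ^ (-(17 / 16) : ℝ))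
        (C * (d : ℝ) ^ (9 / 32 : ℝ) * T) := by rw [hT]; exact hs.hasSum.mul_left _
    rw [← Real.norm_eq_abs]
    refine tsum_of_norm_bounded h2 fun n => ?_
    have hn : (0:ℝ) < (n : ℝ) + 1 := by positivity
    have h3 := h (j * Real.log 2) (n + 1) d (by positivity) (by omega) hd
    have h4 := WW_nonneg φ (j * Real.log 2) (n + 1) d
    have h5 := jo_abs φ d (n + 1)
    rw [Real.norm_eq_abs, abs_mul, abs_div, abs_of_nonneg h4, abs_of_nonneg (Real.sqrt_nonneg _)]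
    push_cast at h3
    calc |jo φ d (n + 1)| / √((n : ℝ) + 1) * WW φ (j * Real.log 2) (n + 1) d ≤
          1 / √((n : ℝ) + 1) * (C * (d : ℝ) ^ (9 / 32 : ℝ) * ((n : ℝ) + 1) ^ (-(9 / 16) : ℝ)) := by gcongr
      _ = C * (d : ℝ) ^ (9 / 32 : ℝ) * (((n : ℝ) + 1) ^ (-(9 / 16) : ℝ) * ((n : ℝ) + 1) ^ (-(1 / 2) : ℝ)) := by
          rw [one_div, Real.sqrt_eq_rpow, ← Real.rpow_neg hn.le]
          ring
      _ = _ := by
          rw [← Real.rpow_add hn]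
          norm_num
  rw [LL_eq1 hφ hd hA hsq, abs_mul, abs_two]
  have h6 : |∑' j : ℕ, (φ.η / √2) ^ j * ∑' n : ℕ, jo φ d (n + 1) / √((n : ℝ) + 1) *
      WW φ (j * Real.log 2) (n + 1) d| ≤ C * (d : ℝ) ^ (9 / 32 : ℝ) * T * (1 - 1 / √(2:ℝ))⁻¹ := by
    rw [← Real.norm_eq_abs]
    refine tsum_of_norm_bounded (geo.mul_left _) fun j => ?_
    rw [norm_mul, Real.norm_eq_abs, Real.norm_eq_abs, mul_comm (C * (d : ℝ) ^ (9 / 32 : ℝ) * T)]
    exact mul_le_mul (eta_pow hφ j) (h1 j) (abs_nonneg _) (by positivity)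
  have h7 := mul_le_mul_of_nonneg_left q_facts.2.2 (show 0 ≤ C * (d : ℝ) ^ (9 / 32 : ℝ) * T by positivity)
  linarith

/-- the bound for all the characters -/
theorem cen_bd : ∃ C : ℝ, 0 < C ∧ ∀ (ε : ℤ) (X : ℕ), ∀ χ ∈ Chs ε X, |cen χ| ≤ C * (X : ℝ) ^ (9 / 32 : ℝ) := by
  have hall : ∀ φ : FD, ∃ C : ℝ, 0 ≤ C ∧ (Fam φ → ∀ d : ℕ, 1 ≤ d → φ.A d → Squarefree d →
      |LLg φ d (1 / 2)| ≤ C * (d : ℝ) ^ (9 / 32 : ℝ)) := by
    intro φ
    by_cases hφ : Fam φ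
    · obtain ⟨C, hC, h⟩ := LL_bd hφ
      exact ⟨C, hC, fun _ => h⟩
    · exact ⟨0, le_rfl, fun h => absurd h hφ⟩
  choose K hK h using hall
  obtain ⟨K₀, hK₀⟩ : ∃ K₀ : ℝ, K₀ = ∑ ε ∈ ({1, -1} : Finset ℤ), (K (F8 ε) + K (F4 ε) + K (F1 ε 1) + K (F1 ε 5)) :=
    ⟨_, rfl⟩
  have hp : ∀ ε : ℤ, 0 ≤ K (F8 ε) + K (F4 ε) + K (F1 ε 1) + K (F1 ε 5) := fun ε => by
    have := hK (F8 ε)
    have := hK (F4 ε)
    have := hK (F1 ε 1)
    have := hK (F1 ε 5)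
    positivity
  have hle : ∀ φ, Fam φ → K φ ≤ K₀ := by
    rintro φ ⟨ε, hε, hφ⟩
    have g0 : K (F8 ε) + K (F4 ε) + K (F1 ε 1) + K (F1 ε 5) ≤ K₀ := by
      rw [hK₀]
      refine single_le_sum (f := fun ε : ℤ => K (F8 ε) + K (F4 ε) + K (F1 ε 1) + K (F1 ε 5)) (fun ε _ => hp ε) ?_
      rcases hε with rfl | rfl <;> simp
    have g8 := hK (F8 ε)
    have g4 := hK (F4 ε)
    have g1 := hK (F1 ε 1)
    have g5 := hK (F1 ε 5)
    rcases hφ with rfl | rfl | rfl | rfl <;> linarith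
  have hK0 : 0 ≤ K₀ := by
    rw [hK₀]
    exact sum_nonneg fun ε _ => hp ε
  refine ⟨K₀ + 1, by positivity, fun ε X χ hχ => ?_⟩
  obtain ⟨N, χ⟩ := χ
  obtain ⟨⟨hN, h1, h2, h3⟩, hNX, -⟩ := hχ
  obtain ⟨φ, d, hφ, hA, hs, hNe, hv⟩ := LnkC.CLS N hN χ h1 h2 h3
  subst hNe
  have hd : 1 ≤ d := Nat.pos_of_ne_zero hs.ne_zero
  have hdX : (d : ℝ) ≤ X := by
    have h4 : d ≤ φ.r * d := Nat.le_mul_of_pos_left d (by exact_mod_cast r_pos hφ)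
    exact_mod_cast h4.trans hNX
  rw [cen_val hφ hA hs h3 hv]
  refine (h φ hφ d hd hA hs).trans ?_
  have h5 : (d : ℝ) ^ (9 / 32 : ℝ) ≤ (X : ℝ) ^ (9 / 32 : ℝ) := Real.rpow_le_rpow (by positivity) hdX (by norm_num)
  have h6 : K φ ≤ K₀ + 1 := (hle φ hφ).trans (by linarith)
  exact mul_le_mul h6 h5 (by positivity) (by positivity)

/-- a sum over a finite set and the number of its positive terms -/
theorem count_pos {α : Type*} {A : Set α} (hA : A.Finite) {f : α → ℝ} {U : ℝ} (hU : ∀ x ∈ A, f x ≤ U) :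
    ∑ᶠ x ∈ A, f x ≤ ({x | x ∈ A ∧ 0 < f x}.ncard : ℝ) * U := by
  classical
  rw [finsum_mem_eq_finite_toFinset_sum _ hA]
  have e1 : ({x | x ∈ A ∧ 0 < f x} : Set α) = ((hA.toFinset.filter fun x => 0 < f x : Finset α) : Set α) := by
    ext x
    simp
  rw [e1, Set.ncard_coe_finset]
  calc ∑ x ∈ hA.toFinset, f x ≤ ∑ x ∈ hA.toFinset, (if 0 < f x then f x else 0) := by
        refine sum_le_sum fun x _ => ?_
        split_ifs with h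
        · exact le_rfl
        · exact not_lt.1 h
    _ = ∑ x ∈ hA.toFinset.filter (fun x => 0 < f x), f x := (sum_filter _ _).symm
    _ ≤ ∑ x ∈ hA.toFinset.filter (fun x => 0 < f x), U :=
        sum_le_sum fun x hx => hU x ((hA.mem_toFinset).1 (mem_filter.1 hx).1)
    _ = _ := by rw [sum_const, nsmul_eq_mul]

/-- the main factor is not too small -/
theorem W_ge (hP2 : StP2) : ∃ c : ℝ, 0 < c ∧ ∀ (Y : ℕ) (a : ℕ → ℝ), 2 ≤ Y → Pat a →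
    c * (1 / 32) ^ Y ≤ prY Y a * MY Y * PYa Y a := by
  obtain ⟨c, hc, h⟩ := hP2
  refine ⟨c / 6, by positivity, fun Y a hY ha => ?_⟩
  have h1 := (h Y (oddP Y) a (oddP_OP Y) ha (fun p hp => oddP_le Y p hp)).1
  have hUM := UM hY ha
  have hq := q_facts
  have ha2 : 0 < 1 - a 2 / √2 ∧ 1 - a 2 / √2 ≤ 2 := by
    have : |a 2 / √2| ≤ 1 / √2 := by
      rw [abs_div, abs_of_nonneg (Real.sqrt_nonneg _)]
      have : |a 2| ≤ 1 := by rcases ha 2 with h | h | h <;> rw [h] <;> norm_num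
      gcongr
    have := abs_le.1 this
    constructor <;> linarith
  have h2 : UL (oddP Y) a = 3 * (prY Y a * MY Y * PYa Y a) * (1 - a 2 / √2) := by
    rw [← hUM, div_mul_cancel₀ _ ha2.1.ne']
  have h3 : (0:ℝ) < c * (1 / 32) ^ Y := by positivity
  rw [h2] at h1
  have h4 : 0 < prY Y a * MY Y * PYa Y a := by
    by_contra hcon
    have : 3 * (prY Y a * MY Y * PYa Y a) * (1 - a 2 / √2) ≤ 0 := by
      apply mul_nonpos_of_nonpos_of_nonneg _ ha2.1.le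
      linarith [not_lt.1 hcon]
    linarith
  nlinarith

/-- **many positive central values with prescribed values at all primes up to `Y`** -/
theorem pos_count (hT : StT) (hP2 : StP2) : ∃ K : ℝ, ∀ (ε : ℤ) (X Y : ℕ) (a : ℕ → ℝ), (ε = 1 ∨ ε = -1) → Pat a →
    K ≤ X → 2 ≤ Y → (Y : ℝ) ≤ Real.log X / 1000 →
    (X : ℝ) ^ (7 / 10 : ℝ) ≤ ({χ | χ ∈ Sub ε X Y a ∧ 0 < cen χ}.ncard : ℝ) := by
  obtain ⟨K₁, hK₁, hT⟩ := hT
  obtain ⟨C, hC, hb⟩ := cen_bd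
  obtain ⟨c, hc, hW⟩ := W_ge hP2
  -- large `X`
  have hev : ∀ᶠ X : ℝ in atTop, 1 + K₁ * (1 + √(Real.log X)) ≤ 3 / (2 * Real.pi ^ 2) * Real.log X := by
    have h1 : Tendsto (fun L : ℝ => 3 / (2 * Real.pi ^ 2) * L - K₁ * √L) atTop atTop := by
      have h2 : (fun L : ℝ => 3 / (2 * Real.pi ^ 2) * L - K₁ * √L) =ᶠ[atTop]
          fun L : ℝ => √L * (3 / (2 * Real.pi ^ 2) * √L - K₁) := by
        filter_upwards [eventually_ge_atTop 0] with L hL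
        have := Real.mul_self_sqrt hL
        calc 3 / (2 * Real.pi ^ 2) * L - K₁ * √L = 3 / (2 * Real.pi ^ 2) * (√L * √L) - K₁ * √L := by rw [this]
          _ = _ := by ring
      refine Tendsto.congr' h2.symm ?_
      refine Real.tendsto_sqrt_atTop.atTop_mul_atTop₀ ?_
      exact tendsto_atTop_add_const_right _ _ (Real.tendsto_sqrt_atTop.const_mul_atTop (by positivity))
    have h3 := (h1.comp Real.tendsto_log_atTop).eventually_ge_atTop (1 + K₁)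
    filter_upwards [h3] with X hX
    simp only [Function.comp_apply] at hX
    linarith
  have hev2 : ∀ᶠ X : ℝ in atTop, C / c ≤ X ^ (1 / 320 : ℝ) :=
    (tendsto_rpow_atTop (by norm_num : (0:ℝ) < 1 / 320)).eventually_ge_atTop _
  obtain ⟨K, hK⟩ := (hev.and hev2).exists_forall_of_atTop
  refine ⟨K, fun ε X Y a hε ha hKX hY hYX => ?_⟩
  obtain ⟨hk1, hk2⟩ := hK X hKX
  obtain ⟨hX1, hlX, hX1000⟩ := range_facts hY hYX
  have hX0 : (0:ℝ) < X := by linarith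
  obtain ⟨W, hWd⟩ : ∃ W, W = prY Y a * MY Y * PYa Y a := ⟨_, rfl⟩
  have hW1 := hW Y a hY ha
  have hT1 := hT ε X Y a hε ha hY hYX
  rw [← hWd] at hW1 hT1
  have hW0 : 0 < W := lt_of_lt_of_le (by positivity) hW1
  have hfin : (Sub ε X Y a).Finite :=
    (d ε hε (fun _ => 0) (fun _ _ => 0) (fun _ _ _ _ _ _ _ _ _ _ => rfl) X).1.subset fun χ hχ => hχ.1
  have h1 := count_pos hfin (f := cen) (U := C * (X : ℝ) ^ (9 / 32 : ℝ)) fun χ hχ => (le_abs_self _).trans (hb ε X χ hχ.1)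
  have h2 : W * X ≤ ∑ᶠ χ ∈ Sub ε X Y a, cen χ := by
    have h3 := (abs_le.1 hT1).1
    have h4 : √(Y : ℝ) ≤ √(Real.log X) := Real.sqrt_le_sqrt (by linarith)
    have h5 : K₁ * W * (1 + √(Y : ℝ)) * X ≤ W * X * (K₁ * (1 + √(Real.log X))) := by
      calc K₁ * W * (1 + √(Y : ℝ)) * X = W * X * (K₁ * (1 + √(Y : ℝ))) := by ring
        _ ≤ _ := by gcongr
    have h6 : W * X * (1 + K₁ * (1 + √(Real.log X))) ≤ W * X * (3 / (2 * Real.pi ^ 2) * Real.log X) := by gcongr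
    have h7 : 3 / Real.pi ^ 2 * (1 / 2 * W) * (X * Real.log X) = W * X * (3 / (2 * Real.pi ^ 2) * Real.log X) := by
      field_simp
    rw [h7] at h3
    nlinarith
  have h8 : (X : ℝ) ^ (-(1 / 64) : ℝ) ≤ (1 / 32) ^ Y := by
    have h9 := pow_facts hY hYX (r := 1) le_rfl (by norm_num)
    rw [Nat.div_one] at h9
    have h10 : (32:ℝ) ^ Y ≤ (X : ℝ) ^ (1 / 64 : ℝ) := (pow_le_pow_left₀ (by norm_num) (by norm_num) Y).trans h9
    rw [Real.rpow_neg hX0.le]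
    calc ((X : ℝ) ^ (1 / 64 : ℝ))⁻¹ ≤ ((32:ℝ) ^ Y)⁻¹ := inv_anti₀ (by positivity) h10
      _ = (1 / 32) ^ Y := by rw [one_div, inv_pow]
  have h11 : c * (X : ℝ) ^ (63 / 64 : ℝ) ≤ W * X := by
    have e : (X : ℝ) ^ (63 / 64 : ℝ) = (X : ℝ) ^ (-(1 / 64) : ℝ) * X := by
      conv_rhs => rw [← Real.rpow_one (X:ℝ), ← Real.rpow_mul hX0.le, ← Real.rpow_add hX0]
      norm_num
    rw [e]
    calc c * ((X : ℝ) ^ (-(1 / 64) : ℝ) * X) ≤ c * ((1 / 32) ^ Y * X) := by gcongr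
      _ = c * (1 / 32) ^ Y * X := by ring
      _ ≤ _ := by gcongr
  have h12 : c * (X : ℝ) ^ (63 / 64 : ℝ) ≤
      ({χ | χ ∈ Sub ε X Y a ∧ 0 < cen χ}.ncard : ℝ) * (C * (X : ℝ) ^ (9 / 32 : ℝ)) := h11.trans (h2.trans h1)
  have h13 : (X : ℝ) ^ (7 / 10 : ℝ) * (C * (X : ℝ) ^ (9 / 32 : ℝ)) ≤ c * (X : ℝ) ^ (63 / 64 : ℝ) := by
    rw [div_le_iff₀ hc] at hk2
    calc (X : ℝ) ^ (7 / 10 : ℝ) * (C * (X : ℝ) ^ (9 / 32 : ℝ)) ≤
          (X : ℝ) ^ (7 / 10 : ℝ) * ((X : ℝ) ^ (1 / 320 : ℝ) * c * (X : ℝ) ^ (9 / 32 : ℝ)) := by gcongr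
      _ = c * ((X : ℝ) ^ (7 / 10 : ℝ) * (X : ℝ) ^ (1 / 320 : ℝ) * (X : ℝ) ^ (9 / 32 : ℝ)) := by ring
      _ = c * (X : ℝ) ^ (63 / 64 : ℝ) := by
        rw [← Real.rpow_add hX0, ← Real.rpow_add hX0]
        norm_num
  exact le_of_mul_le_mul_right (h13.trans h12) (by positivity)

end

end Pool.Agent.K4H64.Pz
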